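import Pool.Agent.Helper14.TK7.StD

/-!
# Project TK (levels `3·7^n`), module Ld: leading forms of `U`, `V` and the values at the origin

Modulo the relations the rows of the operators are the lists `BUK`, `BVK`, `BOK`; their leading forms are read off from the
certificates by LDG (and OMG for the values at the origin). Model: `Pool/Agent/Helper80/TH7/M_Ld.lean`.
-/

set_option autoImplicit false

namespace Pool.Agent.Helper6.TK7

open Pool.Agent.Helper14.TK7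
open Pool.Agent.Helper14.TL7 (TLdg TOmg)
open Pool.Agent.Helper4.S7 (Tm mulL sclL Gd)
open Pool.Agent.Helper84.S7

/-! ### Good lists -/

private theorem gd_app {L L' : List Tm} (h : ∀ t ∈ L, Gd t) (h' : ∀ t ∈ L', Gd t) :
    ∀ t ∈ L ++ L', Gd t := by
  intro t ht
  rcases List.mem_append.1 ht with h1 | h1
  · exact h t h1
  · exact h' t h1

private theorem gd_scl {L : List Tm} (n : ℤ) (h : ∀ t ∈ L, Gd t) : ∀ t ∈ sclL n L, Gd t := by
  intro t ht
  unfold sclL at ht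
  rw [List.mem_map] at ht
  obtain ⟨a, ha, rfl⟩ := ht
  exact h a ha

private theorem gd_id (c : ℤ) (i f : Fin 4) : ∀ t ∈ id4 c i f, Gd t := by
  intro t ht
  unfold id4 at ht
  split_ifs at ht
  · rw [List.mem_singleton] at ht
    subst ht
    unfold Gd
    simp
  · simp at ht

private theorem gd_mul (hp : S7Opm) {L L' : List Tm} (h : ∀ t ∈ L, Gd t) (h' : ∀ t ∈ L', Gd t) :
    ∀ t ∈ mulL L L', Gd t := ((hp 0 0).1 L L' h h').1

private theorem gd_mm (hp : S7Opm) {A B : Fin 4 → Fin 4 → List Tm} (hA : ∀ i f, ∀ t ∈ A i f, Gd t)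
    (hB : ∀ i f, ∀ t ∈ B i f, Gd t) (i f : Fin 4) : ∀ t ∈ mm4 A B i f, Gd t :=
  gd_app (gd_app (gd_app (gd_mul hp (hA i 0) (hB 0 f)) (gd_mul hp (hA i 1) (hB 1 f)))
    (gd_mul hp (hA i 2) (hB 2 f))) (gd_mul hp (hA i 3) (hB 3 f))

private theorem gd_sb (hp : S7Opm) {L : Fin 4 → List Tm} {M : Fin 4 → List Tm}
    (hL : ∀ f, ∀ t ∈ L f, Gd t) (hM : ∀ ρ, ∀ t ∈ M ρ, Gd t)
    (hR : ∀ ρ f, ∀ t ∈ relK ρ f, Gd t) (f : Fin 4) : ∀ t ∈ sbK L M f, Gd t :=
  gd_app (hL f) (gd_scl _ (gd_app (gd_app (gd_app (gd_mul hp (hM 0) (hR 0 f)) (gd_mul hp (hM 1) (hR 1 f)))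
    (gd_mul hp (hM 2) (hR 2 f))) (gd_mul hp (hM 3) (hR 3 f))))

private theorem gd_rel (hc : TCeG) : ∀ ρ f, ∀ t ∈ relK ρ f, Gd t := fun ρ f => (hc.2.1 ρ f).1

private theorem gdT (hc : TCeG) : (∀ i f, ∀ t ∈ T2K i f, Gd t) ∧ (∀ i f, ∀ t ∈ T5K i f, Gd t) ∧
    (∀ i f, ∀ t ∈ T11K i f, Gd t) ∧ (∀ i f, ∀ t ∈ T13K i f, Gd t) ∧ (∀ i f, ∀ t ∈ T17K i f, Gd t) ∧
    (∀ i f, ∀ t ∈ T19K i f, Gd t) ∧ (∀ i f, ∀ t ∈ T23K i f, Gd t) ∧ (∀ i f, ∀ t ∈ T29K i f, Gd t) ∧
    (∀ i f, ∀ t ∈ T31K i f, Gd t) ∧ (∀ i f, ∀ t ∈ T37K i f, Gd t) ∧ (∀ i f, ∀ t ∈ T41K i f, Gd t) ∧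
    (∀ i f, ∀ t ∈ T43K i f, Gd t) ∧ (∀ i f, ∀ t ∈ T47K i f, Gd t) :=
  ⟨fun i f => (hc.1 i f).1, fun i f => (hc.1 i f).2.1, fun i f => (hc.1 i f).2.2.1,
    fun i f => (hc.1 i f).2.2.2.1, fun i f => (hc.1 i f).2.2.2.2.1, fun i f => (hc.1 i f).2.2.2.2.2.1,
    fun i f => (hc.1 i f).2.2.2.2.2.2.1, fun i f => (hc.1 i f).2.2.2.2.2.2.2.1,
    fun i f => (hc.1 i f).2.2.2.2.2.2.2.2.1, fun i f => (hc.1 i f).2.2.2.2.2.2.2.2.2.1,
    fun i f => (hc.1 i f).2.2.2.2.2.2.2.2.2.2.1, fun i f => (hc.1 i f).2.2.2.2.2.2.2.2.2.2.2.1,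
    fun i f => (hc.1 i f).2.2.2.2.2.2.2.2.2.2.2.2⟩

private theorem gd_BU (ho : S7Opm) (hc : TCeG) (i f : Fin 4) : ∀ t ∈ BUK i f, Gd t := by
  obtain ⟨a2, a5, a11, a13, a17, a19, a23, a29, a31, a37, a41, a43, a47⟩ := gdT hc
  refine gd_sb ho (fun f => ?_) (fun ρ => (hc.2.1 i ρ).2.1) (gd_rel hc) f
  exact gd_app (gd_app (gd_app (gd_app (gd_app (gd_app (gd_app (gd_app (gd_id _ i f)
    (gd_scl _ (a2 i f))) (gd_scl _ (a11 i f))) (gd_scl _ (a13 i f))) (gd_scl _ (a19 i f)))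
    (gd_scl _ (a23 i f))) (a41 i f)) (gd_scl _ (gd_mm ho a2 a2 i f))) (gd_scl _ (gd_mm ho a2 a5 i f))

private theorem gd_BV (ho : S7Opm) (hc : TCeG) (i f : Fin 4) : ∀ t ∈ BVK i f, Gd t := by
  obtain ⟨a2, a5, a11, a13, a17, a19, a23, a29, a31, a37, a41, a43, a47⟩ := gdT hc
  have ac : ∀ i f, ∀ t ∈ TcK i f, Gd t := fun i f =>
    gd_app (gd_app (gd_app (gd_scl _ (a2 i f)) (gd_scl _ (a11 i f))) (gd_scl _ (a17 i f)))
      (gd_scl _ (gd_mm ho a2 a2 i f))
  have aa : ∀ i f, ∀ t ∈ TaK i f, Gd t := fun i f =>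
    gd_app (gd_app (gd_app (gd_app (gd_app (gd_app (gd_app (gd_app (gd_app (a2 i f)
      (gd_scl _ (a5 i f))) (gd_scl _ (a11 i f))) (gd_scl _ (a13 i f))) (gd_scl _ (a17 i f)))
      (gd_scl _ (a19 i f))) (a29 i f)) (gd_scl _ (a37 i f))) (gd_mm ho a2 ac i f))
      (gd_scl _ (gd_mm ho a5 a5 i f))
  have ab : ∀ i f, ∀ t ∈ TbK i f, Gd t := fun i f =>
    gd_app (gd_app (gd_app (a5 i f) (gd_scl _ (a11 i f))) (gd_scl _ (a13 i f))) (a31 i f)
  refine gd_sb ho (fun f => ?_) (fun ρ => (hc.2.1 i ρ).2.2) (gd_rel hc) f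
  exact gd_app (gd_app (gd_app (gd_app (gd_app (gd_app (gd_app (gd_app (gd_app (gd_app (gd_app (gd_app
    (gd_app (gd_app (gd_scl _ (a2 i f)) (gd_scl _ (a5 i f))) (gd_scl _ (a13 i f))) (gd_scl _ (a17 i f)))
    (gd_scl _ (a19 i f))) (gd_scl _ (a23 i f))) (gd_scl _ (a29 i f))) (gd_scl _ (a31 i f)))
    (gd_scl _ (a37 i f))) (a41 i f)) (gd_scl _ (a43 i f))) (gd_scl _ (a47 i f))) (gd_mm ho a2 aa i f))
    (gd_mm ho a5 ab i f)) (gd_scl _ (gd_mm ho a11 a11 i f))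

private theorem gd_BO (ho : S7Opm) (hc : TCeG) (c : Fin 8) (f : Fin 4) : ∀ t ∈ BOK c f, Gd t := by
  obtain ⟨a2, a5, a11, a13, a17, a19, a23, a29, a31, a37, a41, a43, a47⟩ := gdT hc
  have a22 := gd_mm ho a2 a2
  have a25 := gd_mm ho a2 a5
  have a211 := gd_mm ho a2 a11
  have a213 := gd_mm ho a2 a13
  have a217 := gd_mm ho a2 a17
  have a219 := gd_mm ho a2 a19
  have a223 := gd_mm ho a2 a23
  have a222 := gd_mm ho a2 a22
  have a225 := gd_mm ho a2 a25
  refine gd_sb ho (fun f => ?_) (fun ρ => hc.2.2 c ρ) (gd_rel hc) f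
  unfold OLK
  split_ifs
  · exact gd_id _ 0 f
  · exact gd_app (gd_id _ 0 f) (gd_scl _ (a2 0 f))
  · exact gd_app (gd_id _ 0 f) (gd_scl _ (a25 0 f))
  · exact gd_app (gd_app (gd_app (gd_app (gd_id _ 0 f) (gd_scl _ (a2 0 f))) (gd_scl _ (a5 0 f)))
      (gd_scl _ (a11 0 f))) (gd_scl _ (a22 0 f))
  · exact gd_app (gd_app (gd_app (gd_app (gd_id _ 0 f) (a11 0 f)) (gd_scl _ (a29 0 f)))
      (gd_scl _ (a25 0 f))) (gd_scl _ (a222 0 f))
  · exact gd_app (gd_app (gd_app (gd_app (gd_app (gd_app (gd_app (gd_app (gd_app (gd_app (gd_app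
      (gd_id _ 0 f) (a2 0 f)) (gd_scl _ (a5 0 f))) (a11 0 f)) (gd_scl _ (a17 0 f))) (gd_scl _ (a19 0 f)))
      (gd_scl _ (a29 0 f))) (gd_scl _ (a31 0 f))) (gd_scl _ (a37 0 f))) (gd_scl _ (a25 0 f)))
      (gd_scl _ (a211 0 f))) (gd_scl _ (a222 0 f))
  · exact gd_app (gd_app (gd_app (gd_app (gd_app (gd_app (gd_app (gd_app (gd_app (gd_app
      (gd_id _ 0 f) (gd_scl _ (a2 0 f))) (gd_scl _ (a5 0 f))) (gd_scl _ (a13 0 f)))
      (gd_scl _ (a19 0 f))) (gd_scl _ (a23 0 f))) (a29 0 f)) (gd_scl _ (a37 0 f)))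
      (gd_scl _ (a22 0 f))) (gd_scl _ (a223 0 f))) (gd_scl _ (a222 0 f))
  · exact gd_app (gd_app (gd_app (gd_app (gd_app (gd_app (gd_app (gd_app (gd_app (gd_app (gd_app (gd_app
      (gd_app (gd_id _ 0 f) (gd_scl _ (a2 0 f))) (gd_scl _ (a5 0 f))) (gd_scl _ (a11 0 f)))
      (gd_scl _ (a13 0 f))) (gd_scl _ (a17 0 f))) (gd_scl _ (a23 0 f))) (gd_scl _ (a29 0 f)))
      (gd_scl _ (a31 0 f))) (gd_scl _ (a22 0 f))) (gd_scl _ (a213 0 f))) (gd_scl _ (a217 0 f)))
      (gd_scl _ (a219 0 f))) (gd_scl _ (a225 0 f))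

private theorem eU (i : Fin 4) : BUK i = sbK (ULK i) (MUK i) := rfl

private theorem eV (i : Fin 4) : BVK i = sbK (VLK i) (MVK i) := rfl

/-! ### Rows modulo the relations -/

section

variable {r s : ℕ}

private theorem row (ho : S7Opm) (hr : TRll) (L : Fin 4 → List Tm) (M : Fin 4 → List Tm)
    (hM : ∀ ρ, ∀ t ∈ M ρ, Gd t) (hR : ∀ ρ f, ∀ t ∈ relK ρ f, Gd t)
    (F : Fin 4 → Fn7 (7 ^ r) (7 ^ s)) (hF : RelK F) :
    ∑ f : Fin 4, opL (L f) (F f) = ∑ f : Fin 4, opL (sbK L M f) (F f) := by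
  obtain ⟨p1, p2, p3, -⟩ := ho r s
  have h := hr r s F hF
  have e : ∀ f : Fin 4, opL (sbK L M f) (F f) = opL (L f) (F f) +
      (((-1 : ℤ)) : ZMod 7) • (opL (M 0) (opL (relK 0 f) (F f)) + opL (M 1) (opL (relK 1 f) (F f)) +
        opL (M 2) (opL (relK 2 f) (F f)) + opL (M 3) (opL (relK 3 f) (F f))) := by
    intro f
    unfold sbK
    rw [p3, p2, p3, p3, p3, (p1 _ _ (hM 0) (hR 0 f)).2, (p1 _ _ (hM 1) (hR 1 f)).2,
      (p1 _ _ (hM 2) (hR 2 f)).2, (p1 _ _ (hM 3) (hR 3 f)).2]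
    rfl
  have q : ∀ ρ : Fin 4, ∑ f : Fin 4, opL (M ρ) (opL (relK ρ f) (F f)) = 0 := by
    intro ρ
    rw [← map_sum, h ρ, map_zero]
  rw [Finset.sum_congr rfl fun f _ => e f, Finset.sum_add_distrib, ← Finset.smul_sum,
    Finset.sum_add_distrib, Finset.sum_add_distrib, Finset.sum_add_distrib, q 0, q 1, q 2, q 3,
    add_zero, add_zero, add_zero, smul_zero, add_zero]

/-! ### Leading forms -/

private theorem leadU (hg : TLdg) (hu : TCeU) (i f : Fin 4) (hG : ∀ t ∈ BUK i f, Gd t) :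
    Lw ((opL (BUK i f) : Module.End (ZMod 7) (Fn7 (7 ^ r) (7 ^ s))) - if i = f then QoK else 0) 3 := by
  have h := hg r s (BUK i f) 2 (fun k => if i = f ∧ k = 1 then 1 else 0) (by norm_num) hG
    (fun w t ht hw => by
      have h1 := hu i f w t ht (by omega)
      rwa [if_neg, sub_zero] at h1
      rintro ⟨-, -, h2⟩
      rw [h2] at hw
      simp at hw)
    (fun w t ht hw => by
      have h1 := hu i f w t ht (by omega)
      have e : (if w = 0 ∧ t.2.1 = 0 then (if i = f ∧ t.1 = 1 then 1 else 0) else 0 : ℤ) =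
          if i = f ∧ w = 0 ∧ t = (1, 0, 1) then 1 else 0 := by
        obtain ⟨a, k, b⟩ := t
        simp only at hw ⊢
        have hk : k = 0 := by omega
        subst hk
        by_cases hi : i = f
        · by_cases hw0 : w = 0
          · by_cases ha : a = 1
            · have hb : b = 1 := by omega
              subst ha hb
              simp [hi, hw0]
            · rw [if_pos ⟨hw0, rfl⟩, if_neg (fun h => ha h.2), if_neg]
              rintro ⟨-, -, h2⟩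
              exact ha (Prod.ext_iff.1 h2).1
          · rw [if_neg (fun h => hw0 h.1), if_neg (fun h => hw0 h.2.1)]
        · rw [if_neg (fun h : i = f ∧ a = 1 => hi h.1), if_neg (fun h : i = f ∧ _ => hi h.1)]
          exact ite_self _
      rw [← e] at h1
      exact h1)
  have e3 : ((2 : ℕ) : ℤ) + 1 = 3 := by norm_num
  rw [e3] at h
  have e4 : (∑ k ∈ Finset.range (2 + 1), (((fun k : ℕ => if i = f ∧ k = 1 then (1 : ℤ) else 0) k : ℤ) : ZMod 7) •
      (dX ^ (2 - k) * dY ^ k : Module.End (ZMod 7) (Fn7 (7 ^ r) (7 ^ s)))) = if i = f then QoK else 0 := by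
    rw [Finset.sum_range_succ, Finset.sum_range_succ, Finset.sum_range_succ, Finset.sum_range_zero]
    by_cases hi : i = f
    · unfold QoK
      simp [hi]
    · simp [hi]
  rw [e4] at h
  exact h

private theorem leadV (hg : TLdg) (hv : ∀ i f, TCeV i f) (i f : Fin 4) (hG : ∀ t ∈ BVK i f, Gd t) :
    Lw ((opL (BVK i f) : Module.End (ZMod 7) (Fn7 (7 ^ r) (7 ^ s))) - if i = f then LoK else 0) 9 := by
  have h := hg r s (BVK i f) 8
    (fun k => if i = f ∧ (k = 1 ∨ k = 7) then 1 else if i = f ∧ k = 4 then 5 else 0) (by norm_num) hG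
    (fun w t ht hw => by
      have h1 := hv i f w t ht
      rwa [if_neg, if_neg, sub_zero] at h1
      · rintro ⟨-, -, h2⟩
        rw [h2] at hw
        simp at hw
      · rintro ⟨-, -, h2 | h2⟩
        · rw [h2] at hw
          simp at hw
        · rw [h2] at hw
          simp at hw)
    (fun w t ht hw => by
      have h1 := hv i f w t ht
      have e : (if w = 0 ∧ t.2.1 = 0 then
            (if i = f ∧ (t.1 = 1 ∨ t.1 = 7) then 1 else if i = f ∧ t.1 = 4 then 5 else 0) else 0 : ℤ) =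
          if i = f ∧ w = 0 ∧ (t = (1, 0, 7) ∨ t = (7, 0, 1)) then 1
            else if i = f ∧ w = 0 ∧ t = (4, 0, 4) then 5 else 0 := by
        obtain ⟨a, k, b⟩ := t
        simp only at hw ⊢
        by_cases hi : i = f
        · by_cases hw0 : w = 0
          · by_cases hk : k = 0
            · subst hk
              by_cases ha : a = 1
              · have hb : b = 7 := by omega
                subst ha hb
                simp [hi, hw0]
              · by_cases ha7 : a = 7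
                · have hb : b = 1 := by omega
                  subst ha7 hb
                  simp [hi, hw0]
                · by_cases ha4 : a = 4
                  · have hb : b = 4 := by omega
                    subst ha4 hb
                    simp [hi, hw0]
                  · rw [if_pos ⟨hw0, rfl⟩, if_neg, if_neg, if_neg, if_neg]
                    · rintro ⟨-, -, h2⟩
                      exact ha4 (Prod.ext_iff.1 h2).1
                    · rintro ⟨-, -, h2 | h2⟩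
                      · exact ha (Prod.ext_iff.1 h2).1
                      · exact ha7 (Prod.ext_iff.1 h2).1
                    · rintro ⟨-, h2⟩
                      exact ha4 h2
                    · rintro ⟨-, h2 | h2⟩
                      · exact ha h2
                      · exact ha7 h2
            · rw [if_neg (fun h => hk h.2), if_neg, if_neg]
              · rintro ⟨-, -, h2⟩
                exact hk (Prod.ext_iff.1 (Prod.ext_iff.1 h2).2).1
              · rintro ⟨-, -, h2 | h2⟩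
                · exact hk (Prod.ext_iff.1 (Prod.ext_iff.1 h2).2).1
                · exact hk (Prod.ext_iff.1 (Prod.ext_iff.1 h2).2).1
          · rw [if_neg (fun h => hw0 h.1), if_neg (fun h => hw0 h.2.1), if_neg (fun h => hw0 h.2.1)]
        · rw [if_neg (fun h : i = f ∧ (a = 1 ∨ a = 7) => hi h.1), if_neg (fun h : i = f ∧ a = 4 => hi h.1),
            if_neg (fun h : i = f ∧ w = 0 ∧ ((a, k, b) = (1, 0, 7) ∨ (a, k, b) = (7, 0, 1)) => hi h.1),
            if_neg (fun h : i = f ∧ w = 0 ∧ (a, k, b) = (4, 0, 4) => hi h.1)]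
          exact ite_self _
      rw [← e] at h1
      exact h1)
  have e3 : ((8 : ℕ) : ℤ) + 1 = 9 := by norm_num
  rw [e3] at h
  have e4 : (∑ k ∈ Finset.range (8 + 1), (((fun k : ℕ => if i = f ∧ (k = 1 ∨ k = 7) then (1 : ℤ)
        else if i = f ∧ k = 4 then 5 else 0) k : ℤ) : ZMod 7) •
      (dX ^ (8 - k) * dY ^ k : Module.End (ZMod 7) (Fn7 (7 ^ r) (7 ^ s)))) = if i = f then LoK else 0 := by
    by_cases hi : i = f
    · unfold LoK
      simp [hi, Finset.sum_range_succ]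
    · simp [hi]
  rw [e4] at h
  exact h

private theorem fin_sum (A : Fin 4 → Module.End (ZMod 7) (Fn7 (7 ^ r) (7 ^ s)))
    (Q : Module.End (ZMod 7) (Fn7 (7 ^ r) (7 ^ s))) (F : Fin 4 → Fn7 (7 ^ r) (7 ^ s)) (d k : ℤ) (i : Fin 4)
    (h : ∀ f, Lw (A f - if i = f then Q else 0) k) (hF : ∀ f, F f ∈ Wd7 d) :
    (∑ f, A f (F f)) - Q (F i) ∈ (Wd7 (d - k) : Submodule (ZMod 7) (Fn7 (7 ^ r) (7 ^ s))) := by
  have h4 : ∀ f, A f (F f) - (if i = f then Q else 0 : Module.End (ZMod 7) (Fn7 (7 ^ r) (7 ^ s))) (F f) ∈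
      (Wd7 (d - k) : Submodule (ZMod 7) (Fn7 (7 ^ r) (7 ^ s))) := by
    intro f
    have h5 := h f d (F f) (hF f)
    rwa [LinearMap.sub_apply] at h5
  have h3 := Submodule.sum_mem (Wd7 (d - k) : Submodule (ZMod 7) (Fn7 (7 ^ r) (7 ^ s)))
    (fun f (_ : f ∈ (Finset.univ : Finset (Fin 4))) => h4 f)
  have e : ∑ f, (if i = f then Q else 0 : Module.End (ZMod 7) (Fn7 (7 ^ r) (7 ^ s))) (F f) = Q (F i) := by
    rw [Finset.sum_eq_single i (fun f _ hf => by rw [if_neg (Ne.symm hf)]; rfl)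
      (fun h => absurd (Finset.mem_univ i) h), if_pos rfl]
  rw [Finset.sum_sub_distrib, e] at h3
  exact h3

/-- a row of lists with given leading forms -/
private theorem lead_row (ho : S7Opm) (hr : TRll) (L : Fin 4 → List Tm) (M : Fin 4 → List Tm)
    (hM : ∀ ρ, ∀ t ∈ M ρ, Gd t) (hR : ∀ ρ f, ∀ t ∈ relK ρ f, Gd t)
    (F : Fin 4 → Fn7 (7 ^ r) (7 ^ s)) (hF : RelK F) (Q : Module.End (ZMod 7) (Fn7 (7 ^ r) (7 ^ s)))
    (d k : ℤ) (i : Fin 4)
    (h : ∀ f, Lw ((opL (sbK L M f) : Module.End (ZMod 7) (Fn7 (7 ^ r) (7 ^ s))) - if i = f then Q else 0) k)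
    (hW : ∀ f, F f ∈ Wd7 d) :
    (∑ f, opL (L f) (F f)) - Q (F i) ∈ (Wd7 (d - k) : Submodule (ZMod 7) (Fn7 (7 ^ r) (7 ^ s))) := by
  rw [row ho hr L M hM hR F hF]
  exact fin_sum (fun f => opL (sbK L M f)) Q F d k i h hW

end

set_option linter.unusedVariables false in
/-- LDU. -/
theorem hLdU (hl : S7Low0) (ho : S7Opm) (hr : TRll) (hg : Pool.Agent.Helper14.TL7.TLdg) (hc : TCeG)
    (hu : TCeU) : TLdU := by
  intro r s d F hR hF i
  refine lead_row ho hr (ULK i) (MUK i) (fun ρ => (hc.2.1 i ρ).2.1) (gd_rel hc) F hR QoK d 3 i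
    (fun f => ?_) hF
  have h := @leadU r s hg hu i f (gd_BU ho hc i f)
  rw [eU] at h
  exact h

set_option linter.unusedVariables false in
/-- LDV. -/
theorem hLdV (hl : S7Low0) (ho : S7Opm) (hr : TRll) (hg : Pool.Agent.Helper14.TL7.TLdg) (hc : TCeG)
    (hv : ∀ i f, TCeV i f) : TLdV := by
  intro r s d F hR hF i
  refine lead_row ho hr (VLK i) (MVK i) (fun ρ => (hc.2.1 i ρ).2.2) (gd_rel hc) F hR LoK d 9 i
    (fun f => ?_) hF
  have h := @leadV r s hg hv i f (gd_BV ho hc i f)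
  rw [eV] at h
  exact h

set_option linter.unusedVariables false in
/-- OM. -/
theorem hOm (hl : S7Low0) (ho : S7Opm) (hr : TRll) (hg : Pool.Agent.Helper14.TL7.TOmg) (hc : TCeG)
    (hu : TCeO) : TOm := by
  intro r s c F hR hF
  have e := row ho hr (OLK c) (MOK c) (hc.2.2 c) (gd_rel hc) F hR
  rw [e]
  have hn : nOK c.val ≤ 8 := by
    unfold nOK aaK abK
    split_ifs <;> omega
  have h : ∀ f : Fin 4, (opL (BOK c f) (F f)) 0 0 = (MoK c.val f.val (F f)) 0 0 := by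
    intro f
    have h0 := hg r s (BOK c f) (nOK c.val) (qOK c.val f.val) hn (gd_BO ho hc c f)
      (fun t ht hk hw => hu c f t ht hk hw) (F f) (hF f)
    rw [h0]
    unfold MoK
    rw [LinearMap.sum_apply, Finset.sum_apply, Finset.sum_apply]
    rfl
  rw [Finset.sum_apply, Finset.sum_apply]
  exact Finset.sum_congr rfl fun f _ => h f

end Pool.Agent.Helper6.TK7
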